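import Pool.Agent.Run7.h619.HG.Cor

/-!
# The `C^r` closing lemma at limits of periodic homogeneous submanifolds `G / Γ`

`V n = ℝⁿ`, `DiffM n N r = Diff^r(N)`, `strongTop n N r` is its strong (Whitney) `C^r` topology (the
usual one, `N` being compact), `IsPer G z`: `z` is periodic for `G` (`Pool/Agent/H718R2/G0.lean`);
`ClosableAt n N r F z`: every neighbourhood of `F` in `Diff^r(N)` contains some `G` for which `z` is
periodic, `IsTorusAct e n N R`: `R` is a smooth action of `ℝᵉ/ℤᵉ` (`Pool/Agent/TH382/QC/Defs.lean`);
`Md d` is the algebra of the linear maps of `ℝᵈ` (the real `d × d` matrices).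

From `Pool/Agent/Run7/h619/HG/`:
* `IsLie G g` (`Lin.lean`): `G ⊆ GL(d, ℝ)` is a connected linear Lie group with the Lie algebra `g`: it
  contains the exponentials of the elements of `g` and is generated by them, and all elements of `G`
  close to `1` are exponentials of small elements of `g`;
* `HasCartan g` (`Close.lean`): some `Y ∈ g` has an abelian centraliser in `g` which is equal to the
  generalised centraliser of `Y` (so it is an abelian Cartan subalgebra). This holds if `g` is closed
  under transposition, so for all reductive groups (`hasCartan_of_selfAdjoint`, `Crit.lean`), and also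
  for many solvable and mixed groups;
* `IsGAction G n N O act` (`Defs.lean`): smooth action of `G` on the open set `O ⊆ N`;
* `IsLatticePt G g act y` (`Defs.lean`): the orbit `G y = G / Γ` is compact (`Γ` is the stabiliser of
  `y`), and the `X ∈ g` for which the set `{γ⁻¹ X γ : γ ∈ Γ}` has only finitely many elements in
  every bounded set are dense in `g`;
* `IsArithPt G g act y` (`Defs.lean`): `G y = G / Γ` is compact and `Γ` is arithmetic: `g` is spanned by
  elements of a discrete subring `R` of `Md d` (for example integer matrices with respect to some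
  basis) and `D Γ ⊆ R` for some integer `D ≥ 1`. Such points satisfy `IsLatticePt` (`arithmetic` below);
* `IsHomPer n N F y` (`Cor.lean`): `y` lies on a periodic homogeneous submanifold: some `G` as above with
  `HasCartan g` acts smoothly on an open set containing `y`, `y` satisfies `IsLatticePt`, for
  `C = G y ≅ G / Γ` one has `F^m(C) = C`, the sets `F^i(C)`, `0 < i < m`, do not meet `C`, and `F^m` is on
  `C` the translation by some (ARBITRARY) `h ∈ G`, possibly composed with a map of finite order which
  commutes with the action. Nothing is required of `F` elsewhere.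

The other theorems are special cases: all translations of `G / Γ` with `G` reductive and `Γ` arithmetic
and cocompact, cocycle extensions over maps which can be closed (`Comm ρ f`: `f` commutes with the action
`ρ`; `IsSkew ρ a F₀ F`: `F y = a(y) · F₀(y)` with `a` invariant under the action and `Comm ρ F₀`;
`EqClosable n N r ρ F₀ z`: `F₀` can be closed at `z` by maps which commute with the action), and
quasi-periodic cocycles, for example `F (x, u Γ) = (x + α, a(x) u Γ)` on `𝕋ᵉ × G / Γ` for all smooth
`a : 𝕋ᵉ → G`, at all points.
-/

set_option autoImplicit false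

open scoped Manifold ContDiff Topology

namespace Pool.Agent.Results.MP_1e8d1a_an.HomogeneousArithmetic

open Pool.Agent.H718R2.G Pool.Agent.TH382.QC Run7.h619.HG

/-- Let `N` be a closed manifold, `F ∈ Diff^r(N)` (`0 ≤ r ≤ ∞`) and `z ∈ N`. Suppose that arbitrarily
`C^r`-close to `F` there are diffeomorphisms `F'` (for example `F' = F`) for which `z` is a limit of
points lying on periodic homogeneous submanifolds `G / Γ` on which the return map is a translation; here
`G` (which may depend on `F'` and on the point) is any connected linear Lie group whose Lie algebra `g`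
has an abelian Cartan subalgebra, `G / Γ` is compact, and the elements of `g` with locally finite orbits
under conjugation by `Γ` are dense in `g` (for example, `Γ` is arithmetic). Then the conclusion of the
`C^r` closing lemma holds for `F` at `z`. -/
theorem result {n : ℕ} {N : Type*} [TopologicalSpace N] [T2Space N] [CompactSpace N]
    [ChartedSpace (V n) N] [IsManifold (𝓡 n) ∞ N] (r : ℕ∞) (F : DiffM n N r) (z : N)
    (h : ∀ U : Set (DiffM n N r), IsOpen[strongTop n N r] U → F ∈ U →
      ∃ F' ∈ U, z ∈ closure {y | IsHomPer n N F' y}) :
    ∀ U : Set (DiffM n N r), IsOpen[strongTop n N r] U → F ∈ U → ∃ f ∈ U, IsPer f z :=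
  main F z h

variable {d n : ℕ} {G : Subgroup (Md d)ˣ} {g : Submodule ℝ (Md d)} {N : Type*} [TopologicalSpace N]
  [T2Space N] [CompactSpace N] [ChartedSpace (V n) N] [IsManifold (𝓡 n) ∞ N]

/-- Arithmetic stabilisers are allowed. -/
theorem arithmetic {O : Set N} {act : G → N → N} (hact : IsGAction G n N O act) {y : N} (hy : y ∈ O)
    (h : IsArithPt G g act y) : IsLatticePt G g act y :=
  lattice_of_arith h fun u hu => by
    have h1 := hact.mul u⁻¹ u y hy
    rw [inv_mul_cancel, hact.one y hy, hu] at h1
    exact h1.symm

/-- Special case: all translations of `G / Γ`, where the Lie algebra of `G` is closed under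
transposition (so `G` is reductive) and `Γ` is arithmetic and cocompact. -/
theorem reductive_translation (hG : IsLie G g) (hg : ∀ X ∈ g, ContinuousLinearMap.adjoint X ∈ g)
    (r : ℕ∞) (ρ : G → N → N) (hρ : IsGAction G n N Set.univ ρ) (h : G) (F : DiffM n N r)
    (hF : ∀ y, F y = ρ h y) (z : N) (hz : IsArithPt G g ρ z) : ClosableAt n N r F z :=
  translation hG (hasCartan_of_selfAdjoint hG hg) hρ h F hF z (arithmetic hρ (Set.mem_univ z) hz)

/-- Special case: cocycle extensions `F y = a(y) · F₀(y)` of a map `F₀` which can be closed at `z` by
maps commuting with the action. -/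
theorem cocycle_extension (hG : IsLie G g) (hC : HasCartan g) (r : ℕ∞) (ρ : G → N → N)
    (hρ : IsGAction G n N Set.univ ρ) (a : N → G) (F₀ F : DiffM n N r) (hF : IsSkew ρ a F₀ F)
    (z : N) (hz : IsLatticePt G g ρ z) (hc : EqClosable n N r ρ F₀ z) : ClosableAt n N r F z :=
  extension hG hC hρ F₀ F hF z hz hc

/-- Special case: quasi-periodic cocycles with values in `G`, at all points. -/
theorem quasiperiodic_cocycle {e : ℕ} (hG : IsLie G g) (hC : HasCartan g) (r : ℕ∞) (ρ : G → N → N)
    (hρ : IsGAction G n N Set.univ ρ) (R : V e → N → N) (hR : IsTorusAct e n N R)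
    (hRρ : ∀ b, Comm ρ (R b)) (α : V e) (a : N → G) (F₀ F : DiffM n N r)
    (hF₀ : ∀ y, F₀ y = R α y) (hF : IsSkew ρ a F₀ F) (z : N) (hz : IsLatticePt G g ρ z) :
    ClosableAt n N r F z :=
  quasiperiodic hG hC hρ hR hRρ α F₀ F hF₀ hF z hz

end Pool.Agent.Results.MP_1e8d1a_an.HomogeneousArithmetic
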