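import Pool.Agent.Run7.h619.TC.Stm

/-!
# The `C^r` closing lemma for products of arbitrary diffeomorphisms with time changes of homogeneous flows

`V n = ℝⁿ`, `DiffM n N r = Diff^r(N)`, `strongTop n N r` is its strong (Whitney) `C^r` topology (the
usual one, `N` being compact), `IsRec F z`: `z` is recurrent, i.e. `m ↦ F^m z` is not a homeomorphism
of `ℤ` onto its image, `IsPer G z`: `z` is periodic (`Pool/Agent/H718R2/G0.lean`); `ClosableAt n N r F z`:
every neighbourhood of `F` in `Diff^r(N)` contains some `G` for which `z` is periodic
(`Pool/Agent/TH382/QC/Defs.lean`); `Md d` is the algebra of the linear maps of `ℝᵈ` (the real `d × d`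
matrices).

From `Pool/Agent/Run7/h619/`:
* `IsLie G g` (`HG/Lin.lean`): `G ⊆ GL(d, ℝ)` is a connected linear Lie group with the Lie algebra `g`: it
  contains the exponentials of the elements of `g` and is generated by them, and all elements of `G`
  close to `1` are exponentials of small elements of `g`; `expG hG W hW` (`TC/Main.lean`) is the
  exponential of `W ∈ g`, as an element of `G`;
* `HasCartan g` (`HG/Close.lean`): some `Y ∈ g` has an abelian centraliser in `g` which is equal to the
  generalised centraliser of `Y` (so it is an abelian Cartan subalgebra); true if `g` is closed under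
  transposition;
* `IsGAction G n N O act` (`HG/Defs.lean`): smooth action of `G` on the open set `O ⊆ N`;
* `IsLatticePt G g act y` (`HG/Defs.lean`): the orbit `G y = G / Γ` is compact (`Γ` is the stabiliser of
  `y`), and the `X ∈ g` for which the set `{γ⁻¹ X γ : γ ∈ Γ}` has only finitely many elements in
  every bounded set are dense in `g`; true if `Γ` is arithmetic, in the sense of `IsArithPt`;
* `IsProd G n N m Q ρ σ π` (`TC/Main.lean`): `ρ`, `σ` are smooth actions of `G` on `N`, `Q`, the map
  `π : N → Q` is smooth and equivariant, and `u (π y) = π y` implies `u y = y`. Example: `N = M × Q`, where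
  `G` acts on the second factor and `π` is the projection;
* `IsBase`, `IsTimeChange`, `IsTCProd`, `IsTCOver`, `IsTCPoint` (`TC/Stm.lean`): `IsTCPoint n N r F z` means that, for
  some `N`, `Q`, `π` as in `IsProd`, `Q` closed, `G` as in `IsLie` with `HasCartan g`, there are
  `F₀ ∈ Diff^r(N)` which commutes with `G` and preserves `π`, and a smooth time change of the flow of a
  one-parameter group `exp (t W)` on `Q`, with arbitrary `W ∈ g`, such that `F` is the composition of `F₀` with the
  time-one map `y ↦ exp(τ(π y) W) y` of the time change; `z` is recurrent for `F₀`, and `π z` satisfies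
  `IsLatticePt` and is not fixed by `G`.

In the example `N = M × Q`, the maps `F₀` and `F` are `f × id` and `f × φ`, where `f ∈ Diff^r(M)` is
ARBITRARY and `φ` is the time-one map of the flow on `Q` whose velocity is `β⁻¹` times that of the
one-parameter group, with an arbitrary smooth `β > 0`. The point `z = (x, q)` is such that `x` is recurrent
for `f` (for example, if `z` is recurrent for `F`), and `G q = G / Γ` is as above.
-/

set_option autoImplicit false

open scoped Manifold ContDiff Topology

namespace Pool.Agent.Results.MP_1e8d1a_an.ProductsWithTimeChanges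

open Pool.Agent.H718R2.G Pool.Agent.TH382.QC Run7.h619.HG Run7.h619.TC

/-- Let `N` be a closed manifold, `F ∈ Diff^r(N)` (`1 ≤ r ≤ ∞`) and `z ∈ N`. Suppose that arbitrarily
`C^r`-close to `F` there are diffeomorphisms `F'` (for example `F' = F`) for which `z` is a limit of
points as in `IsTCPoint`: `F'` is the product of an ARBITRARY diffeomorphism `f`, for which the first
coordinate of the point is recurrent, and of the time-one map of an ARBITRARY smooth time change of a
homogeneous flow, given by a one-parameter group of a connected linear Lie group `G` whose Lie algebra has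
an abelian Cartan subalgebra, on a closed manifold on which `G` acts smoothly, the orbit of the second
coordinate of the point being compact with arithmetic stabiliser (or satisfying `IsLatticePt`). Then the
conclusion of the `C^r` closing lemma holds for `F` at `z`. -/
theorem result {n : ℕ} {N : Type*} [TopologicalSpace N] [T2Space N] [CompactSpace N]
    [ChartedSpace (V n) N] [IsManifold (𝓡 n) ∞ N] (r : ℕ∞) (hr : 1 ≤ r) (F : DiffM n N r) (z : N)
    (h : ∀ U : Set (DiffM n N r), IsOpen[strongTop n N r] U → F ∈ U →
      ∃ F' ∈ U, z ∈ closure {y | IsTCPoint n N r F' y}) :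
    ∀ U : Set (DiffM n N r), IsOpen[strongTop n N r] U → F ∈ U → ∃ f ∈ U, IsPer f z :=
  limit_tc hr F z h

variable {d m : ℕ} {G : Subgroup (Md d)ˣ} {g : Submodule ℝ (Md d)} {Q : Type*} [TopologicalSpace Q]
  [T2Space Q] [CompactSpace Q] [ChartedSpace (V m) Q] [IsManifold (𝓡 m) ∞ Q]

/-- Special case `M` = point: time-one maps of smooth time changes of homogeneous flows, at all points with
orbits as above. -/
theorem time_change (hG : IsLie G g) (hC : HasCartan g) (r : ℕ∞) (hr : 1 ≤ r) (σ : G → Q → Q)
    (hσ : IsGAction G m Q Set.univ σ) (W : Md d) (hW : W ∈ g) (τ : Q → ℝ)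
    (hτ : IsTimeChange hG W hW m Q σ τ) (F : DiffM m Q r)
    (hF : ∀ q, F q = σ (expG hG (τ q • W) (g.smul_mem _ hW)) q) (z : Q)
    (hz : IsLatticePt G g σ z) : ClosableAt m Q r F z := by
  obtain ⟨β, hβ, hβ0, hβτ⟩ := hτ
  by_cases hne : ∃ u, σ u z ≠ z
  · refine main hr hG hC (ρ := σ) (σ := σ) (π := id)
      ⟨hσ, hσ, contMDiff_id, fun _ _ => rfl, fun _ _ h => h⟩
      (Diffeomorph.refl (𝓡 m) Q r) F (fun _ _ => rfl) (fun _ => rfl) W hW β hβ hβ0 τ hβτ hF z ?_ hz hne
    apply isRec_of_returns
    intro U hU
    exact ⟨1, le_rfl, mem_of_mem_nhds hU⟩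
  · push Not at hne
    intro U _ hFU
    refine ⟨F, hFU, 1, le_rfl, ?_⟩
    show F z = z
    rw [hF]
    exact hne _

/-- The case where the Lie algebra of `G` is closed under transposition (so `G` is reductive) and `Γ` is
arithmetic and cocompact. -/
theorem reductive_time_change (hG : IsLie G g) (hg : ∀ X ∈ g, ContinuousLinearMap.adjoint X ∈ g)
    (r : ℕ∞) (hr : 1 ≤ r) (σ : G → Q → Q) (hσ : IsGAction G m Q Set.univ σ) (W : Md d) (hW : W ∈ g)
    (τ : Q → ℝ) (hτ : IsTimeChange hG W hW m Q σ τ) (F : DiffM m Q r)
    (hF : ∀ q, F q = σ (expG hG (τ q • W) (g.smul_mem _ hW)) q) (z : Q)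
    (hz : IsArithPt G g σ z) : ClosableAt m Q r F z :=
  time_change hG (hasCartan_of_selfAdjoint hG hg) r hr σ hσ W hW τ hτ F hF z
    (lattice_of_arith hz fun u hu => by
      have h1 := hσ.mul u⁻¹ u z (Set.mem_univ z)
      rw [inv_mul_cancel, hσ.one z (Set.mem_univ z), hu] at h1
      exact h1.symm)

end Pool.Agent.Results.MP_1e8d1a_an.ProductsWithTimeChanges
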