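import Pool.Agent.Run7.h619.SK.Stm

/-!
# The `C^r` closing lemma for skew products over hyperbolic sets with arbitrary flows in the fibres

`V n = ℝⁿ`, `DiffM n N r = Diff^r(N)`, `strongTop n N r` is its strong (Whitney) `C^r` topology (the
usual one, `N` being compact), `IsPer G z`: `z` is periodic (`Pool/Agent/H718R2/G0.lean`).
`NonWand f x`: `x` is a nonwandering point of `f`; `PerShadow h`: the periodic shadowing property, every
periodic `δ`-pseudo-orbit of `h` is `η`-shadowed by a periodic orbit with the same period
(`Pool/Agent/W564/SC/Defs.lean`).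

From `Pool/Agent/Run7/h619/SK/`:
* `ChainTrans h` (`Flex.lean`): `h` is chain transitive;
* `IsAct d n N r ψ` (`Defs.lean`): `ψ` is a `C^r` action of `ℝ^d` on `N`;
* `skew φ f h c` (`Defs.lean`): the map `(x, y) ↦ (φ_(c(y)) f(x), h(y))`;
* `IsSkew F Θ ψ φ f h c` (`Defs.lean`): `Θ : X × Y → N` is a topological embedding (onto a compact set
  `K`), `ψ` is a `C^r` action of `ℝ^d` on `N` which maps each fibre `Θ(X × {y})` to itself, by `φ`, the map
  `c : Y → ℝ^d` is continuous, the continuous map `f : X → X` commutes with `φ`, and on `K` the
  diffeomorphism `F` is `skew φ f h c`. Nothing is assumed of `F` outside of `K`;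
* `IsSkewPoint n N r F z` (`Defs.lean`): `z` is a nonwandering point of the restriction of `F` to such a
  compact set `K`, where `X`, `Y` are compact metric spaces, `Y` is infinite, and the homeomorphism `h` of `Y`
  is chain transitive with the periodic shadowing property.

Examples. (1) `F(x, y) = (φ_(c(y)) x, A y)` on `N = M × B`, `φ` an ARBITRARY flow on a closed manifold `M`,
`A` a transitive Anosov diffeomorphism of `B`, `c : B → ℝ` an ARBITRARY `C^r` function (`T, T⁻¹`
transformations, if `∫ c = 0`): the closing lemma holds for `F` at every nonwandering point. No hyperbolicity,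
domination or recurrence is required in the fibres. (2) The same for actions of `ℝ^d` on `M` and
`c : B → ℝ^d`, for instance toral extensions of (1), and for `F(x, y) = (φ_(c(y)) f(x), h(y))` with `f`
commuting with `φ`, over an infinite transitive hyperbolic set of any diffeomorphism. (3) `d = 0`:
products `f × h` with `f` arbitrary (theorem `product`; for chain mixing `h` this is the starting result
`ArbitraryTimesMixing`). The skew products `(x, y) ↦ (f x, h^{τ(x)} y)`, in which the hyperbolic factor depends on
the arbitrary one (the opposite direction), are treated in the starting result `HyperbolicFibres`.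
-/

set_option autoImplicit false

open scoped Manifold ContDiff Topology

universe u v w

namespace Pool.Agent.Results.MP_1e8d1a_an.SkewProductsOverHyperbolic

open Pool.Agent.H718R2.G Pool.Agent.W564.SC Run7.h619.SK

/-- Let `N` be a closed manifold, `F ∈ Diff^r(N)` (`1 ≤ r ≤ ∞`) and `z ∈ N`. Suppose that arbitrarily
`C^r`-close to `F` there are diffeomorphisms `F'` (for example `F' = F`) for which `z` is a limit of
nonwandering points of the restrictions of `F'` to compact sets on which `F'` is a skew product
`(x, y) ↦ (φ_(c(y)) f(x), h(y))`: the base map `h` is chain transitive with the periodic shadowing property,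
on an infinite set (for example an infinite transitive hyperbolic set), the fibres are permuted by `f`
and by an action `φ` of `ℝ^d` (for example a flow), the restriction of a `C^r` action on `N`, where `f`, `φ`
and the continuous function `c` are ARBITRARY, except that `f` and `φ` commute. Then the conclusion of the
`C^r` closing lemma holds for `F` at `z`. -/
theorem result {n : ℕ} {N : Type u} [TopologicalSpace N] [T2Space N] [CompactSpace N]
    [ChartedSpace (V n) N] [IsManifold (𝓡 n) ∞ N] (r : ℕ∞) (hr : 1 ≤ r) (F : DiffM n N r) (z : N)
    (h : ∀ U : Set (DiffM n N r), IsOpen[strongTop n N r] U → F ∈ U →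
      ∃ F' ∈ U, z ∈ closure {y | IsSkewPoint.{u, v, w} n N r F' y}) :
    ∀ U : Set (DiffM n N r), IsOpen[strongTop n N r] U → F ∈ U → ∃ G ∈ U, IsPer G z :=
  limit_skew hr F z h

/-- Special case: products `f × h` on `K ≅ X × Y`, `f` an arbitrary continuous map, `h` chain transitive
with periodic shadowing on an infinite compact metric space. -/
theorem product {n : ℕ} {N : Type u} [TopologicalSpace N] [T2Space N] [CompactSpace N]
    [ChartedSpace (V n) N] [IsManifold (𝓡 n) ∞ N] (r : ℕ∞) (hr : 1 ≤ r) (F : DiffM n N r)
    {X : Type v} {Y : Type w} [MetricSpace X] [CompactSpace X] [MetricSpace Y] [CompactSpace Y]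
    [Infinite Y] {Θ : X × Y → N} (hΘ : Topology.IsEmbedding Θ) {f : X → X} (hf : Continuous f)
    {h : Y ≃ₜ Y} (hF : ∀ x y, F (Θ (x, y)) = Θ (f x, h y)) (hs : PerShadow h) (hT : ChainTrans h)
    (x : X) (y : Y) (hw : NonWand (fun p : X × Y => (f p.1, h p.2)) (x, y)) :
    ∀ U : Set (DiffM n N r), IsOpen[strongTop n N r] U → F ∈ U → ∃ G ∈ U, IsPer G (Θ (x, y)) :=
  closable_of_skew hr F (product_skew F hΘ hf hF) hs hT x y hw

end Pool.Agent.Results.MP_1e8d1a_an.SkewProductsOverHyperbolic
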