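import Pool.Agent.Run7.h619.SK.FlowStm

/-!
# The `C^r` closing lemma for time maps of skew product flows over hyperbolic flows, with arbitrary fibres

`V n = ℝⁿ`, `DiffM n N r = Diff^r(N)`, `strongTop n N r` is its strong (Whitney) `C^r` topology (the
usual one, `N` being compact), `IsPer G z`: `z` is periodic (`Pool/Agent/H718R2/G0.lean`).
`NonWand f x`: `x` is a nonwandering point of `f` (`Pool/Agent/W564/SC/Defs.lean`).

From `Pool/Agent/Run7/h619/SK/`:
* `FlowShadow g` (`FlowA.lean`): the periodic shadowing property of the flow `g` on `Y`: for every `η` there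
  is `δ` such that every sequence `w_0, …, w_m = w_0` with `dist (g_1 w_i) w_(i+1) < δ` is `η`-shadowed by
  a closed orbit, `g_(t_m) p = p`, `dist (g_(t_i) p) w_i < η`, `t_0 = 0`, `|t_(i+1) - t_i - 1| < η`;
* `ChainTrans h` (`Flex.lean`): `h` is chain transitive;
* `IsBaseFlow g` (`FlowStm.lean`): `FlowShadow g`, `ChainTrans (g 1)`, and `Y` is not a single orbit; for
  example `Y` is a transitive hyperbolic set of a flow (locally maximal, without fixed points), and not a
  closed orbit;
* `IsAct d n N r ψ` (`Defs.lean`): `ψ` is a `C^r` action of `ℝ^d` on `N`; `IsRFlow n N r Ψ` (`FlowB.lean`):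
  `Ψ` is a `C^r` flow on `N`; `IsCoc g C` (`FlowA.lean`): `C` is a continuous additive cocycle over `g`;
* `IsSkewFlow n r Θ ψ Ψ φ g C` (`FlowB.lean`): `Θ : X × Y → N` is a topological embedding (onto a compact
  set `K`), `ψ` is a `C^r` action of `ℝ^d` on `N` which maps each fibre `Θ(X × {y})` to itself, by `φ`, and
  the `C^r` flow `Ψ` of `N` is on `K` the skew product flow `(x, y) ↦ (φ_(C(t, y)) x, g_t(y))`;
* `skew φ f h c` (`Defs.lean`): the map `(x, y) ↦ (φ_(c(y)) f(x), h(y))`;
* `IsSkewFlowPoint n N r F z` (`FlowStm.lean`): `z` is a nonwandering point of the restriction of `F` to such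
  a compact set `K`, over a flow `g` as in `IsBaseFlow`, where on `K` the diffeomorphism `F` is
  `Ψ_τ ∘ (f × id)`, `τ > 0`, with an arbitrary continuous map `f : X → X` commuting with `φ`.

Example: `N = M × B`, `g` a transitive Anosov flow on `B`, `Z` an ARBITRARY vector field on the closed
manifold `M` and `c : B → ℝ` an ARBITRARY function: `F` is the time-`τ` map of the skew product flow
`dx/dt = c(y) Z(x)`, `y = g_t(y_0)`, on `M × B`, possibly composed with `f × id`, where `f` is a
diffeomorphism of `M` preserving `Z`. The closing lemma holds for `F` at all its nonwandering points. These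
maps are not hyperbolic in the direction of the flow, nor in the fibres, and no domination is assumed. If
the fibre part does not depend on `y` (`c` constant, `F = f × g_τ`), and for skew products
`(x, y) ↦ (f x, g_{τ(x)} y)` in which the hyperbolic factor depends on the arbitrary one (the opposite
direction), this is the starting result `HyperbolicFibres`.
-/

set_option autoImplicit false

open scoped Manifold ContDiff Topology

universe u v w

namespace Pool.Agent.Results.MP_1e8d1a_an.TimeMapsOverHyperbolicFlows

open Pool.Agent.H718R2.G Pool.Agent.W564.SC Run7.h619.SK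

/-- Let `N` be a closed manifold, `F ∈ Diff^r(N)` (`1 ≤ r ≤ ∞`) and `z ∈ N`. Suppose that arbitrarily
`C^r`-close to `F` there are diffeomorphisms `F'` (for example `F' = F`) for which `z` is a limit of
nonwandering points of the restrictions of `F'` to compact sets `K ≅ X × Y` on which `F' = Ψ_τ ∘ (f × id)`,
`τ > 0`, where `Ψ` is a skew product flow `(x, y) ↦ (φ_(C(t, y)) x, g_t(y))` over a chain transitive flow `g`
with the periodic shadowing property (for example a transitive Anosov flow), which is not a single orbit;
the action `φ` of `ℝ^d` in the fibres (the restriction of a `C^r` action on `N`), the cocycle `C` and the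
continuous map `f` are ARBITRARY, except that `f` and `φ` commute. Then the conclusion of the `C^r`
closing lemma holds for `F` at `z`. -/
theorem result {n : ℕ} {N : Type u} [TopologicalSpace N] [T2Space N] [CompactSpace N]
    [ChartedSpace (V n) N] [IsManifold (𝓡 n) ∞ N] (r : ℕ∞) (hr : 1 ≤ r) (F : DiffM n N r) (z : N)
    (h : ∀ U : Set (DiffM n N r), IsOpen[strongTop n N r] U → F ∈ U →
      ∃ F' ∈ U, z ∈ closure {y | IsSkewFlowPoint.{u, v, w} n N r F' y}) :
    ∀ U : Set (DiffM n N r), IsOpen[strongTop n N r] U → F ∈ U → ∃ G ∈ U, IsPer G z :=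
  limit_flow hr F z h

/-- Special case: time-`τ` maps of skew product flows over a flow as in `IsBaseFlow`, with an arbitrary
action of `ℝ^d` in the fibres. -/
theorem time_map {d n : ℕ} {N : Type u} [TopologicalSpace N] [T2Space N] [CompactSpace N]
    [ChartedSpace (V n) N] [IsManifold (𝓡 n) ∞ N] (r : ℕ∞) (hr : 1 ≤ r) (F : DiffM n N r)
    {X : Type v} {Y : Type w} [MetricSpace X] [CompactSpace X]
    [MetricSpace Y] [CompactSpace Y] {Θ : X × Y → N} {ψ : V d → N → N} {Ψ : ℝ → N → N}
    {φ : V d → X → X} {g : ℝ → Y → Y} {C : ℝ → Y → V d} (H : IsSkewFlow n r Θ ψ Ψ φ g C)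
    (hg : IsBaseFlow g) (τ : ℝ) (hτ : 0 < τ) (hF : ∀ x y, F (Θ (x, y)) = Ψ τ (Θ (x, y))) (x : X)
    (y : Y) (hw : NonWand (fun p : X × Y => (φ (C τ p.2) p.1, g τ p.2)) (x, y)) :
    ∀ U : Set (DiffM n N r), IsOpen[strongTop n N r] U → F ∈ U → ∃ G ∈ U, IsPer G (Θ (x, y)) :=
  closable_of_flow hr F H continuous_id (fun _ _ => rfl) τ hτ hF hg.shadow hg.trans hg.ne x y hw

end Pool.Agent.Results.MP_1e8d1a_an.TimeMapsOverHyperbolicFlows
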